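import Mathlib
import Pool.Agent.Run7.h402.PV.V5

/-!
# Problem `MP_51e72e_nt`: a growing number of polynomials, almost all vectors of constant terms

Let `D ≥ 1`. For all large `X`, all `k ≤ (log X) ^ (1 / 51)`, and all integer polynomials `P_1, …, P_k` of degrees between `1` and `D`
with `|P_i(n)| < N_i` for `1 ≤ n ≤ X`, where the leading coefficients and the numbers `N_i / X ^ deg P_i` are at most
`exp ((log X) ^ (1 / 51))`: among the vectors `a` with `N_i < a_i ≤ 2 N_i` for which the product of the `P_i(n) + a_i` has no fixed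
prime divisor, all but a proportion `exp (-(log X) ^ (1 / 51))` are such that `P_1(n) + a_1, …, P_k(n) + a_k` are simultaneously
prime for at least `X exp (-(log X) ^ (1 / 24))` of the integers `1 ≤ n ≤ X`.
-/

set_option autoImplicit false

open Finset Polynomial
open scoped Classical

namespace Pool.Agent.Results.MP_51e72e_nt.ManyPolynomials

/-- no prime divides all the products of the values of the polynomials `P i + a i` -/
def NoFixedPrime {k : ℕ} (P : Fin k → ℤ[X]) (a : Fin k → ℕ) : Prop :=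
  ∀ p : ℕ, p.Prime → ∃ n : ℕ, ∀ i, ¬ (p : ℤ) ∣ (P i).eval (n : ℤ) + a i

/-- the number of integers `1 ≤ n ≤ x` for which all the `P i (n) + a i` are prime -/
noncomputable def hits {k : ℕ} (P : Fin k → ℤ[X]) (a : Fin k → ℕ) (x : ℕ) : ℕ :=
  ((Icc 1 x).filter (fun n : ℕ => ∀ i, ∃ p : ℕ, p.Prime ∧ (P i).eval (n : ℤ) + a i = p)).card

/-- the vectors `a` of integers with `N i < a i ≤ 2 * N i` -/
def box {k : ℕ} (N : Fin k → ℕ) : Finset (Fin k → ℕ) := Fintype.piFinset (fun i => Ioc (N i) (2 * N i))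

open Run7.h402.PT Run7.h402.PV
open Pool.Agent.H373R2.T7 (pz mem_pz)

/-- **Many polynomials, almost all vectors of constant terms.** -/
theorem result (D : ℕ) (hD : 1 ≤ D) : ∃ X₀ : ℕ, ∀ X : ℕ, X₀ ≤ X → ∀ k : ℕ, 1 ≤ k → (k : ℝ) ≤ Real.log X ^ (1 / 51 : ℝ) →
    ∀ (P : Fin k → ℤ[X]) (N : Fin k → ℕ),
    (∀ i, 1 ≤ (P i).natDegree ∧ (P i).natDegree ≤ D ∧ |((P i).leadingCoeff : ℝ)| ≤ Real.exp (Real.log X ^ (1 / 51 : ℝ)) ∧
      X ≤ N i ∧ (N i : ℝ) ≤ Real.exp (Real.log X ^ (1 / 51 : ℝ)) * (X : ℝ) ^ (P i).natDegree ∧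
      ∀ n : ℕ, 1 ≤ n → n ≤ X → |(P i).eval (n : ℤ)| < N i) →
    (((box N).filter (fun a => NoFixedPrime P a ∧ (hits P a X : ℝ) < X * Real.exp (-(Real.log X ^ (1 / 24 : ℝ))))).card : ℝ) ≤
      Real.exp (-(Real.log X ^ (1 / 51 : ℝ))) * (((box N).filter (fun a => NoFixedPrime P a)).card : ℝ) := by
  obtain ⟨τ, hτ0, hτ1, l1, h1⟩ := poly_model D
  obtain ⟨C, l2, hC1, h2⟩ := rough_interval
  obtain ⟨l3, h3⟩ := grow (16 * C) (τ / 100) (by linarith) (by positivity)
  have hlim0 : ∀ c : ℝ, 0 < c → ∀ M : ℝ, ∀ᶠ l : ℝ in Filter.atTop, M ≤ l ^ c := fun c hc M =>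
    (tendsto_rpow_atTop hc).eventually_ge_atTop M
  obtain ⟨l4, h4⟩ := Filter.eventually_atTop.1 ((hlim0 (1 / 2 - 24 / 51) (by norm_num) (100 / τ)).and
    (hlim0 (12 / 25 - 24 / 51) (by norm_num) D))
  set L := max (max (max l1 l2) (max l3 l4)) (max (max (D : ℝ) 100000000) ((1000 / τ) ^ 2)) with hL
  have hlim : Filter.Tendsto (fun H : ℕ => Real.log (H : ℝ) ^ (1 / 24 : ℝ)) Filter.atTop Filter.atTop :=
    (tendsto_rpow_atTop (show (0 : ℝ) < 1 / 24 by norm_num)).comp (Real.tendsto_log_atTop.comp (tendsto_natCast_atTop_atTop (R := ℝ)))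
  obtain ⟨H0, hH0⟩ := Filter.eventually_atTop.1 (hlim.eventually_ge_atTop L)
  refine ⟨max H0 2, fun X hX k hk1 hkX P N hP => ?_⟩
  have hlL := hH0 X ((le_max_left _ _).trans hX)
  have hX2 : 2 ≤ X := (le_max_right _ _).trans hX
  have hXr : (2 : ℝ) ≤ X := by exact_mod_cast hX2
  have hXpos : (0 : ℝ) < X := by linarith
  set l : ℝ := Real.log X ^ (1 / 24 : ℝ) with hl
  have hl1 : l1 ≤ l := (((le_max_left _ _).trans (le_max_left _ _)).trans (le_max_left _ _)).trans hlL
  have hl2 : l2 ≤ l := (((le_max_right _ _).trans (le_max_left _ _)).trans (le_max_left _ _)).trans hlL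
  have hl3 : l3 ≤ l := (((le_max_left _ _).trans (le_max_right _ _)).trans (le_max_left _ _)).trans hlL
  have hl4 : l4 ≤ l := (((le_max_right _ _).trans (le_max_right _ _)).trans (le_max_left _ _)).trans hlL
  have hlD : (D : ℝ) ≤ l := (((le_max_left _ _).trans (le_max_left _ _)).trans (le_max_right _ _)).trans hlL
  have hl8 : 100000000 ≤ l := (((le_max_right _ _).trans (le_max_left _ _)).trans (le_max_right _ _)).trans hlL
  have hlτ : (1000 / τ) ^ 2 ≤ l := ((le_max_right _ _).trans (le_max_right _ _)).trans hlL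
  have hl0 : 0 < l := by linarith
  have hlone : 1 ≤ l := by linarith
  have hlogX : 0 ≤ Real.log X := Real.log_nonneg (by linarith)
  have hl24 : l ^ 24 = Real.log X := by
    rw [hl, ← Real.rpow_natCast, ← Real.rpow_mul hlogX]
    norm_num
  have hXe : Real.exp (l ^ 24) = X := by rw [hl24, Real.exp_log hXpos]
  have hX23 : Real.exp (l ^ 23) ≤ X := by
    rw [← hXe]
    apply Real.exp_le_exp.2
    exact pow_le_pow_right₀ hlone (by norm_num)
  -- the small power of the logarithm
  have ht : Real.log X ^ (1 / 51 : ℝ) = l ^ (24 / 51 : ℝ) := by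
    rw [hl, ← Real.rpow_mul hlogX]
    norm_num
  rw [ht] at hkX hP ⊢
  set t := l ^ (24 / 51 : ℝ) with htd
  have ht0 : 0 < t := by positivity
  obtain ⟨h41, h42⟩ := h4 l hl4
  set s := √l with hs
  have hs0 : 0 < s := Real.sqrt_pos.2 hl0
  have hss : s * s = l := Real.mul_self_sqrt hl0.le
  have hs4 : 10000 ≤ s := by
    apply Real.le_sqrt_of_sq_le
    norm_num
    exact hl8
  have hsl : s * 10000 ≤ l := by nlinarith
  have hsτ : 1000 ≤ τ * s := by
    have h5 : 1000 / τ ≤ s := Real.le_sqrt_of_sq_le hlτ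
    rw [div_le_iff₀ hτ0] at h5
    linarith
  have hts : t ≤ τ / 100 * s := by
    have e1 : l ^ (1 / 2 - 24 / 51 : ℝ) * t = s := by
      rw [htd, hs, ← Real.rpow_add hl0, Real.sqrt_eq_rpow]
      norm_num
    have e2 : 100 / τ * t ≤ s := by
      rw [← e1]
      gcongr
    have e3 : t = τ / 100 * (100 / τ * t) := by field_simp
    rw [e3]
    gcongr
  have htl : t ≤ l := by nlinarith
  have hkD : ((k * D : ℕ) : ℝ) ≤ l ^ (12 / 25 : ℝ) := by
    push_cast
    have e1 : l ^ (12 / 25 - 24 / 51 : ℝ) * t = l ^ (12 / 25 : ℝ) := by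
      rw [htd, ← Real.rpow_add hl0]
      norm_num
    rw [← e1]
    calc (k : ℝ) * D ≤ t * l ^ (12 / 25 - 24 / 51 : ℝ) := by gcongr
      _ = _ := mul_comm _ _
  have hkk : (k : ℝ) ≤ l ^ (12 / 25 : ℝ) := by
    refine le_trans ?_ hkD
    exact_mod_cast Nat.le_mul_of_pos_right k hD
  have hkDl : ((k * D : ℕ) : ℝ) ≤ l := hkD.trans (by
    conv_rhs => rw [← Real.rpow_one l]
    exact Real.rpow_le_rpow_of_exponent_le hlone (by norm_num))
  -- the conditions
  have hcond : Cond D l τ X P N := by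
    intro i
    obtain ⟨p1, p2, p3, p4, p5, p6⟩ := hP i
    have e1 : Real.exp t ≤ Real.exp (τ / 100 * √l) := Real.exp_le_exp.2 hts
    have e2 : ((3 * N i : ℕ) : ℝ) ≤ Real.exp (l ^ 41) := by
      push_cast
      have h3e : (3 : ℝ) ≤ Real.exp 2 := by
        have := Real.add_one_le_exp (2 : ℝ)
        linarith
      have e3 : (X : ℝ) ^ (P i).natDegree ≤ Real.exp (l * l ^ 24) := by
        calc (X : ℝ) ^ (P i).natDegree ≤ (X : ℝ) ^ D := pow_le_pow_right₀ (by linarith) p2
          _ = Real.exp (D * l ^ 24) := by rw [← hXe, ← Real.exp_nat_mul]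
          _ ≤ _ := by
              apply Real.exp_le_exp.2
              gcongr
      calc 3 * (N i : ℝ) ≤ Real.exp 2 * (Real.exp t * Real.exp (l * l ^ 24)) := by
            gcongr
            exact p5.trans (by gcongr)
        _ = Real.exp (2 + (t + l * l ^ 24)) := by rw [Real.exp_add, Real.exp_add]
        _ ≤ Real.exp (l ^ 41) := by
            apply Real.exp_le_exp.2
            have a1 : l ^ 26 ≤ l ^ 41 := pow_le_pow_right₀ hlone (by norm_num)
            have a2 : l ^ 26 = l * l ^ 25 := by ring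
            have a3 : l * l ^ 24 = l ^ 25 := by ring
            have a4 : l ≤ l ^ 25 := le_self_pow₀ hlone (by norm_num)
            nlinarith
    exact ⟨p1, p2, p3.trans e1, p4, e2, p5.trans (by gcongr), p6⟩
  obtain ⟨Λ, G, hΛs, hΛl, hG0, hfacts⟩ := h1 l hl1
  obtain ⟨hsum, hlow⟩ := hfacts X hX23 k hk1 hkD P N hcond
  obtain ⟨g1, _, hks⟩ := h3 l hl3 k hkk
  have hΛ0 : 0 < Λ := hs0.trans_le hΛs
  set Bad := (box N).filter (fun a => NoFixedPrime P a ∧ (hits P a X : ℝ) < X * Real.exp (-l)) with hBad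
  set Adm := (box N).filter (fun a => NoFixedPrime P a) with hAdm
  set Nn : ℝ := ∏ i, (N i : ℝ) with hNn
  have hN1 : ∀ i, 1 ≤ N i := fun i => by have := (hcond i).2.2.2.1; omega
  have hNn0 : 0 < Nn := prod_pos fun i _ => by exact_mod_cast hN1 i
  have hl41 : (1 : ℝ) ≤ l ^ 41 := one_le_pow₀ hlone
  set sh : (Fin k → ℕ) → (Fin k → ℕ) := fun a i => a i - N i with hsh
  have hboxr : ∀ a ∈ box N, ∀ i, N i < a i ∧ a i ≤ 2 * N i := by
    intro a ha i
    unfold box at ha
    exact mem_Ioc.1 ((Fintype.mem_piFinset.1 ha) i)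
  have hshr : ∀ a ∈ box N, sh a ∈ Fintype.piFinset (fun i => Icc 1 (N i)) := by
    intro a ha
    rw [Fintype.mem_piFinset]
    intro i
    have := hboxr a ha i
    rw [mem_Icc]
    simp only [hsh]
    omega
  have hvla : ∀ a ∈ box N, ∀ i n, vl (P i) (N i) n (sh a i) = ((P i).eval (n : ℤ) + a i).natAbs := by
    intro a ha i n
    have := hboxr a ha i
    unfold vl
    simp only [hsh]
    congr 1
    omega
  have hΦ : ∀ a ∈ Bad, X * Real.exp (-(τ / 4 * Λ)) / 2 ≤
      |∑ n ∈ Icc 1 X, (∏ i, Fp (vl (P i) (N i) n (sh a i)) - ∏ i, G (vl (P i) (N i) n (sh a i)))| := by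
    intro a ha
    rw [hBad, mem_filter] at ha
    obtain ⟨hab, hadm, hhits⟩ := ha
    have m1 := hlow (sh a) (hshr a hab) (fun p hp => by
      obtain ⟨n, hn⟩ := hadm p (mem_pz.1 hp).2
      refine ⟨n, fun i h => hn i ?_⟩
      have e := hboxr a hab i
      have e2 : (P i).eval (n : ℤ) + N i + sh a i = (P i).eval (n : ℤ) + a i := by
        simp only [hsh]
        omega
      rwa [e2] at h)
    have m2 : ∑ n ∈ Icc 1 X, ∏ i, Fp (vl (P i) (N i) n (sh a i)) ≤ X * Real.exp (-(τ / 4 * Λ)) / 2 := by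
      have e1 : ∀ n ∈ Icc 1 X, ∏ i, Fp (vl (P i) (N i) n (sh a i)) ≤
          if (∀ i, ∃ p : ℕ, p.Prime ∧ (P i).eval (n : ℤ) + a i = p) then (l ^ 41) ^ k else 0 := by
        intro n hn
        rw [mem_Icc] at hn
        have hr : ∀ i, 2 ≤ vl (P i) (N i) n (sh a i) ∧ vl (P i) (N i) n (sh a i) ≤ 3 * N i := fun i => by
          have e3 := mem_Icc.1 ((Fintype.mem_piFinset.1 (hshr a hab)) i)
          have e4 := vl_range (P i) (N i) n (sh a i) ((hcond i).2.2.2.2.2.2 n hn.1 hn.2) e3.1 e3.2
          exact ⟨e4.1, e4.2.1⟩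
        split_ifs with hp
        · calc ∏ i, Fp (vl (P i) (N i) n (sh a i)) ≤ ∏ _i : Fin k, l ^ 41 := by
                apply prod_le_prod (fun i _ => Fp_nonneg _)
                intro i _
                have e2 : Fp (vl (P i) (N i) n (sh a i)) ≤ Real.log ((vl (P i) (N i) n (sh a i) : ℕ) : ℝ) := by
                  unfold Run7.h402.PT.Fp
                  split_ifs
                  · exact le_rfl
                  · exact Real.log_natCast_nonneg _
                refine e2.trans ?_
                have e3 : (0 : ℝ) < ((vl (P i) (N i) n (sh a i) : ℕ) : ℝ) := by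
                  have := (hr i).1
                  exact_mod_cast (by omega)
                rw [Real.log_le_iff_le_exp e3]
                refine le_trans ?_ (hcond i).2.2.2.2.1
                exact_mod_cast (hr i).2
            _ = (l ^ 41) ^ k := by rw [prod_const, card_univ, Fintype.card_fin]
        · push Not at hp
          obtain ⟨i, hi⟩ := hp
          apply le_of_eq
          apply prod_eq_zero (mem_univ i)
          unfold Run7.h402.PT.Fp
          rw [if_neg]
          intro h5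
          apply hi _ h5
          have e3 := mem_Icc.1 ((Fintype.mem_piFinset.1 (hshr a hab)) i)
          have e4 := (vl_range (P i) (N i) n (sh a i) ((hcond i).2.2.2.2.2.2 n hn.1 hn.2) e3.1 e3.2).2.2
          have e5 := hboxr a hab i
          rw [e4]
          simp only [hsh]
          omega
      refine (sum_le_sum e1).trans ?_
      rw [← sum_filter, sum_const, nsmul_eq_mul]
      have e2 : (((Icc 1 X).filter (fun n : ℕ => ∀ i, ∃ p : ℕ, p.Prime ∧ (P i).eval (n : ℤ) + a i = p)).card : ℝ) ≤ X * Real.exp (-l) := by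
        have := hhits.le
        unfold hits at this
        exact this
      have e3 : (l ^ 41) ^ k ≤ Real.exp (τ / 100 * s) := by
        refine le_trans ?_ g1
        have e4 : l ^ 41 ≤ 16 * C * l ^ 50 := by
          have e5 : l ^ 41 ≤ l ^ 50 := pow_le_pow_right₀ hlone (by norm_num)
          have e6 : (0 : ℝ) ≤ l ^ 50 := by positivity
          nlinarith
        gcongr
      calc (((Icc 1 X).filter (fun n : ℕ => ∀ i, ∃ p : ℕ, p.Prime ∧ (P i).eval (n : ℤ) + a i = p)).card : ℝ) * (l ^ 41) ^ k ≤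
          (X * Real.exp (-l)) * Real.exp (τ / 100 * s) := by gcongr
        _ = X * Real.exp (-l + τ / 100 * s) := by rw [mul_assoc, ← Real.exp_add]
        _ ≤ X * Real.exp (-(τ / 4 * Λ) - 1) := by
            gcongr
            have a0 : τ / 4 ≤ 1 / 40 := by linarith
            have a1 : τ / 4 * Λ ≤ 1 / 40 * (l / 8) := mul_le_mul a0 hΛl hΛ0.le (by norm_num)
            have a2 : τ / 100 * s ≤ 1 / 1000 * s := mul_le_mul_of_nonneg_right (by linarith) hs0.le
            linarith
        _ = X * (Real.exp (-(τ / 4 * Λ)) * Real.exp (-1)) := by rw [← Real.exp_add]; rfl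
        _ ≤ X * (Real.exp (-(τ / 4 * Λ)) * (1 / 2)) := by
            gcongr
            rw [Real.exp_neg, inv_le_comm₀ (Real.exp_pos _) (by norm_num)]
            have := Real.add_one_le_exp (1 : ℝ)
            norm_num
            linarith
        _ = _ := by ring
    rw [sum_sub_distrib, abs_sub_comm]
    refine le_trans ?_ (le_abs_self _)
    linarith
  have hshinj : ∀ a ∈ Bad, ∀ b ∈ Bad, sh a = sh b → a = b := by
    intro a ha b hb h
    funext i
    have e1 := hboxr a (mem_filter.1 ha).1 i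
    have e2 := hboxr b (mem_filter.1 hb).1 i
    have e3 := congrFun h i
    simp only [hsh] at e3
    omega
  have hsumBad : ∑ a ∈ Bad, |∑ n ∈ Icc 1 X, (∏ i, Fp (vl (P i) (N i) n (sh a i)) - ∏ i, G (vl (P i) (N i) n (sh a i)))| ≤
      X * Real.exp (-(τ * Λ)) * Nn := by
    refine le_trans ?_ hsum
    rw [← sum_image (f := fun v : Fin k → ℕ => |∑ n ∈ Icc 1 X, (∏ i, Fp (vl (P i) (N i) n (v i)) - ∏ i, G (vl (P i) (N i) n (v i)))|)
      (g := sh) (s := Bad) hshinj]
    apply sum_le_sum_of_subset_of_nonneg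
    · intro v hv
      rw [mem_image] at hv
      obtain ⟨a, ha, rfl⟩ := hv
      exact hshr a (mem_filter.1 ha).1
    · intro v _ _
      exact abs_nonneg _
  have hBadcard : (Bad.card : ℝ) * (X * Real.exp (-(τ / 4 * Λ)) / 2) ≤ X * Real.exp (-(τ * Λ)) * Nn := by
    refine le_trans ?_ hsumBad
    rw [← nsmul_eq_mul, ← sum_const]
    exact sum_le_sum hΦ
  -- the number of admissible vectors
  set z := zl l with hz
  have hzl : l ≤ (z : ℝ) := by
    have e1 := zl_gt l
    have e2 : l + 1 ≤ Real.exp l := Real.add_one_le_exp l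
    linarith
  have hzt : ∀ i, (P i).leadingCoeff.natAbs ≤ z := by
    intro i
    rw [hz]
    unfold zl
    apply Nat.le_floor
    rw [Nat.cast_natAbs, Int.cast_abs]
    refine (hP i).2.2.1.trans (Real.exp_le_exp.2 htl)
  have hkDz : k * D ≤ z := by
    have : ((k * D : ℕ) : ℝ) ≤ z := hkDl.trans hzl
    exact_mod_cast this
  have hP1 : ∀ i, ∃ L : ℕ, (L : ℤ) = (P i).eval 1 + N i ∧ L ≤ 2 * N i := by
    intro i
    have e1 := (hcond i).2.2.2.2.2.2 1 le_rfl (by omega)
    rw [Nat.cast_one, abs_lt] at e1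
    refine ⟨((P i).eval 1 + N i).toNat, ?_, ?_⟩
    · rw [Int.toNat_of_nonneg]; omega
    · omega
  choose Ls hLs1 hLs2 using hP1
  set W : Fin k → Finset ℕ := fun i => (Icc 1 (N i)).filter (fun v => ∀ p ∈ pz z, ¬ p ∣ Ls i + v) with hW
  have hWlow : ∀ i, (N i : ℝ) ≤ 16 * C * l ^ 50 * ((W i).card : ℝ) := by
    intro i
    have e1 := h2 l hl2 (N i) (Ls i) (by
      have e2 : (X : ℝ) ≤ N i := by exact_mod_cast (hcond i).2.2.2.1
      push_cast
      linarith) (hLs2 i)
    refine e1.trans ?_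
    have e2 : C * l ^ 2 ≤ 16 * C * l ^ 50 := by
      have e3 : l ^ 2 ≤ l ^ 50 := pow_le_pow_right₀ hlone (by norm_num)
      have e4 : (0 : ℝ) ≤ l ^ 50 := by positivity
      nlinarith
    gcongr
  have hAdmcard : ∏ i, ((W i).card : ℝ) ≤ (Adm.card : ℝ) := by
    have e1 : (Fintype.piFinset W).card ≤ Adm.card := by
      apply card_le_card_of_injOn (fun v i => N i + v i)
      · intro v hv
        rw [mem_coe, Fintype.mem_piFinset] at hv
        rw [mem_coe, hAdm, mem_filter]
        constructor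
        · unfold box
          rw [Fintype.mem_piFinset]
          intro i
          have := mem_Icc.1 (mem_filter.1 (hv i)).1
          rw [mem_Ioc]
          show N i < N i + v i ∧ N i + v i ≤ 2 * N i
          omega
        · intro p hp
          have e2 := adm_of_rough P (fun i => (N i : ℤ) + v i) D z (fun i => ⟨(hP i).1, (hP i).2.1⟩) hzt hkDz (by
            intro i p hp h
            have e3 := (mem_filter.1 (hv i)).2 p hp
            apply e3
            rw [← add_assoc, ← hLs1 i] at h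
            exact_mod_cast h) p hp
          obtain ⟨n, hn⟩ := e2
          refine ⟨n, fun i => ?_⟩
          have := hn i
          push_cast
          exact this
      · intro v _ w _ hvw
        funext i
        have := congrFun hvw i
        simp only at this
        omega
    rw [Fintype.card_piFinset] at e1
    exact_mod_cast e1
  have hratio : Nn ≤ Real.exp (τ / 100 * s) * (Adm.card : ℝ) := by
    calc Nn ≤ ∏ i, (16 * C * l ^ 50 * ((W i).card : ℝ)) := prod_le_prod (fun _ _ => Nat.cast_nonneg _) (fun i _ => hWlow i)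
      _ = (16 * C * l ^ 50) ^ k * ∏ i, ((W i).card : ℝ) := by
          rw [prod_mul_distrib, prod_const, card_univ, Fintype.card_fin]
      _ ≤ Real.exp (τ / 100 * s) * (Adm.card : ℝ) := by
          apply mul_le_mul g1 hAdmcard (prod_nonneg fun _ _ => Nat.cast_nonneg _) (Real.exp_pos _).le
  -- conclusion
  have hAdm0 : 0 ≤ (Adm.card : ℝ) := Nat.cast_nonneg _
  have hfin : (Bad.card : ℝ) ≤ Real.exp (-(τ / 2 * s)) * (Adm.card : ℝ) := by
    have e1 : (Bad.card : ℝ) * (X * Real.exp (-(τ / 4 * Λ)) / 2) ≤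
        (Real.exp (-(τ / 2 * s)) * (Adm.card : ℝ)) * (X * Real.exp (-(τ / 4 * Λ)) / 2) := by
      refine hBadcard.trans ?_
      have e2 : Real.exp (-(τ * Λ)) * Real.exp (τ / 100 * s) ≤ Real.exp (-(τ / 2 * s)) * (Real.exp (-(τ / 4 * Λ)) / 2) := by
        have e3 : Real.exp (-(τ / 4 * Λ)) * Real.exp (-1) ≤ Real.exp (-(τ / 4 * Λ)) / 2 := by
          have e30 : Real.exp (-1) ≤ 1 / 2 := by
            rw [Real.exp_neg, inv_le_comm₀ (Real.exp_pos _) (by norm_num)]
            have := Real.add_one_le_exp (1 : ℝ)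
            norm_num
            linarith
          have e31 := mul_le_mul_of_nonneg_left e30 (Real.exp_pos (-(τ / 4 * Λ))).le
          linarith
        calc Real.exp (-(τ * Λ)) * Real.exp (τ / 100 * s) = Real.exp (-(τ * Λ) + τ / 100 * s) := (Real.exp_add _ _).symm
          _ ≤ Real.exp (-(τ / 2 * s) + (-(τ / 4 * Λ) + -1)) := by
              apply Real.exp_le_exp.2
              have : τ * s ≤ τ * Λ := by gcongr
              nlinarith
          _ = Real.exp (-(τ / 2 * s)) * (Real.exp (-(τ / 4 * Λ)) * Real.exp (-1)) := by rw [Real.exp_add, Real.exp_add]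
          _ ≤ _ := by gcongr
      calc X * Real.exp (-(τ * Λ)) * Nn ≤ X * Real.exp (-(τ * Λ)) * (Real.exp (τ / 100 * s) * (Adm.card : ℝ)) := by gcongr
        _ = X * (Adm.card : ℝ) * (Real.exp (-(τ * Λ)) * Real.exp (τ / 100 * s)) := by ring
        _ ≤ X * (Adm.card : ℝ) * (Real.exp (-(τ / 2 * s)) * (Real.exp (-(τ / 4 * Λ)) / 2)) := by gcongr
        _ = _ := by ring
    exact le_of_mul_le_mul_right e1 (by positivity)
  refine hfin.trans ?_
  apply mul_le_mul_of_nonneg_right _ hAdm0
  apply Real.exp_le_exp.2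
  nlinarith

end Pool.Agent.Results.MP_51e72e_nt.ManyPolynomials
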